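import Pool.Agent.H.MP_76ae7e_lc.B

set_option autoImplicit false

namespace Pool.Agent.Results.MP_76ae7e_lc.NotInherited

open Pool.Agent.Lib.helper21.PR Filter Set Function Pool.Agent.H.MP_5f0f34_lc Pool.Agent.H.MP_76ae7e_lc
open Pool.Agent.H.MP_f36693_lc Encodable Denumerable Nat.Partrec Nat.Partrec.Code Cardinal
open Pool.Agent.H.MP_fa5791_lc hiding As

attribute [local irreducible] Primrec Computable

variable {M : Type}

/-- any two strong constructivizations are autoequivalent -/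
def SAut (L : Lang) (A : Str M) : Prop := ∀ ν μ, SCon L A ν → SCon L A μ →
  ∃ e : M ≃ M, Iso L A A e ∧ ∃ f : ℕ → ℕ, Computable f ∧ ∀ n, e (ν n) = μ (f n)

/-- uncountable models of the same cardinality are isomorphic -/
def UCat (L : Lang) (A : Str M) : Prop := ∀ (N P : Type) (B : Str N) (C : Str P), Th L B = Th L A → Th L C = Th L A →
  Uncountable N → Nonempty (N ≃ P) → ∃ e : N ≃ P, Iso L B C e

/-- elementarily embeddable in every model of its theory -/
def IsPrime (L : Lang) (A : Str M) : Prop := ∀ (N : Type) [Nonempty N] (B : Str N), Th L B = Th L A →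
  ∃ e : M → N, ∀ φ v, Ok L φ univ → (Sat A φ v ↔ Sat B φ (e ∘ v))

theorem result : ∃ (A : Str (Unit × ℕ)) (B : Str (Bool × ℕ)), ComputablePred (Th Lg A) ∧ UCat Lg A ∧ IsPrime Lg A ∧
    (∃ ν, SCon Lg A ν) ∧ SAut Lg A ∧ Th Lg B = Th Lg A ∧ ¬ Saturated Lg B ∧ ¬ SAut Lg B := by
  classical
  obtain ⟨E, e1, e2⟩ : ∃ E : ℕ → ℕ → Option ℕ, Primrec (fun z : ℕ × ℕ => E z.1 z.2) ∧
    ∀ c x, E c x = evaln c.unpair.2 (ofNat Code c.unpair.1) x := ⟨_, by fun_prop, fun _ _ => rfl⟩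
  obtain ⟨K, k1, k2⟩ : ∃ K : ℕ → Prop, PP K ∧ ∀ c, K c ↔ (E c 1).isSome = true ∧
    (E c (2 * 3 ^ c.unpair.1 + 1)).isSome = true := ⟨_, .mk (by fun_prop), fun _ => .rfl⟩
  obtain ⟨s, hs⟩ : ∃ s : ℕ → ZMod 3, ∀ e, s e = if ∃ u ∈ (ofNat Code e).eval 1, ∃ w ∈ (ofNat Code e).eval (2 * 3 ^ e + 1),
    d (w / 2) e = d (u / 2) e + 1 then -1 else 1 := ⟨_, fun _ => rfl⟩
  obtain ⟨ν, n1, n2⟩ := scon (s := 1) (N := fun _ => false) k1 (by fun_prop) (by simp) (by simp [show (1 : ZMod 3) ≠ -1 by decide])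
  obtain ⟨μ, m1, m2⟩ := scon (s := s) (N := fun c => cd ((E c (2 * 3 ^ c.unpair.1 + 1)).getD 0 / 2 / 3 ^ c.unpair.1 % 3 =
    ((E c 1).getD 0 / 2 / 3 ^ c.unpair.1 + 1) % 3)) k1 (by fun_prop) (fun t => by rw [hs]; split_ifs <;> simp) fun c a => by
      obtain ⟨u, b⟩ := Option.isSome_iff_exists.1 ((k2 c).1 a).1
      obtain ⟨w, e⟩ := Option.isSome_iff_exists.1 ((k2 c).1 a).2
      simp [b, e, hs, ← ZMod.natCast_eq_natCast_iff', Part.eq_some_iff.2 (evaln_sound (e2 .. ▸ b)),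
        Part.eq_some_iff.2 (evaln_sound (e2 .. ▸ e)), d, show (1 : ZMod 3) ≠ -1 by decide]
  refine ⟨St K (), St K false, ?_, fun N P B C a b c ⟨e⟩ => ?_, fun N _ B a => ?_, ⟨fun n => ((), n),
    fun x => ⟨x.2, rfl⟩, cpr (.of_eq (ci_comp (g := fun z : ℕ × List ℕ => (z.1, z.2.map (2 * ·))) (cp n1.2)
      (by fun_prop)) fun z => congrArg cd (propext ?_))⟩, fun ν μ a b => ?_, th_st,
    fun a => ?_, fun a => ?_⟩
  · refine th_st (o := false) ▸ cpr (.of_eq (ci_comp (g := fun φ => (φ, [])) (cp n1.2) (by fun_prop)) fun φ => ?_)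
    exact congrArg cd (propext (and_congr_right fun a => ⟨fun b v => (a.congr (by simp)).1 b, (· _)⟩))
  · have : Nonempty P := e.symm.nonempty
    obtain ⟨I, o, f, g⟩ := classify a
    obtain ⟨J, p, h, k⟩ := classify b
    have l : ∀ {I : Type}, Uncountable (I × ℕ) → #(I × ℕ) = #I := fun {I} a => by
      have : ℵ₀ < #I := aleph0_lt_mk_iff.2 ⟨fun _ => not_countable (α := I × ℕ) inferInstance⟩
      simp [mul_aleph0_eq this.le]
    obtain ⟨q⟩ : Nonempty (I ≃ J) := Cardinal.eq.1 (by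
      rw [← l (f.uncountable_iff.1 c), ← l ((e.trans h).uncountable_iff.1 c), ← mk_congr f, ← mk_congr h, mk_congr e])
    refine ⟨f.trans (((q.trans (Equiv.swap (q o) p)).prodCongr (.refl ℕ)).trans h.symm), fun r l a => ?_, by simp [Lg]⟩
    rw [g.1 r l a, k.1 r _ (by simpa using a)]
    match l, a with
    | [x], _ => simp [Prod.ext_iff, Equiv.swap_apply_eq_iff]
    | [x, y], _ => simp
    | [], e => simp [Lg] at e
    | _ :: _ :: _ :: _, e => simp [Lg] at e
  · choose n hn using named a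
    refine ⟨fun x => n x.2, fun φ v b => ?_⟩
    obtain ⟨w, c⟩ := tr' a ((fun x => n x.2) ∘ v) (insert φ ((Finset.range (φ + 1)).image fun i => rel (v i).2 [var i]))
    refine .trans ((b.mono (W := Iio (φ + 1)) (by grind)).congr fun i e => ?_) (c φ (by simp) b).symm
    simpa [hn, Prod.ext_iff, eq_comm] using c _ (Finset.mem_insert_of_mem (Finset.mem_image_of_mem _
      (Finset.mem_range.2 e))) (by simp [Lg])
  · have : ∀ i, ν ((z.2.map (2 * ·)).getD i 0) = (false, z.2.getD i 0) := fun i => by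
      rw [show (0 : ℕ) = 2 * 0 from rfl, List.getD_map]
      exact Prod.ext (by simp [n2]) (d_inj (by simp [n2]))
    simp only [List.length_map, this]
    exact and_congr_right fun a => bf z.1.lt_succ_self (finite_Iio _) a (by simp [Mt, Eqv])
  · obtain ⟨P, p1, p2⟩ := cp' (Y := O) a.2
    obtain ⟨Q, q1, q2⟩ := cp' (Y := O) b.2
    obtain ⟨f, c, e⟩ := RI.choice (Y := O) (R := fun n m : ℕ => ∃ k, P (rel k [var 0], [n]) = true ∧
      Q (rel k [var 0], [m]) = true) (by unfold rel; fun_prop) fun n => (b.1 (ν n)).imp fun m e =>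
        ⟨(ν n).2, by simp [p2, q2, Fm, Lg, e]⟩
    refine ⟨.refl _, ⟨by simp, by simp⟩, f, ci_comput c, fun n => ?_⟩
    obtain ⟨k, e⟩ := e n
    simp [p2, q2, Fm, Lg] at e
    exact e.1.trans e.2.symm
  · obtain ⟨v, -, b⟩ := a [] 2 (fun φ => Fm Lg 2 φ ∧ Sat (St K 0) φ fun i => (i + 1, 0)) ⟨by simp +contextual,
      fun φ c => by simp_all [Fm, em], fun F c => (tr' (th_st (K := K) (o := 0) (o' := false))
        (fun i => (i + 1, 0)) F).imp fun w e => ⟨by simp, fun φ f => (e φ f ((c φ f).1.mono (by simp))).1 (c φ f).2⟩⟩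
    have c : ∀ i < 2, (v i).1 = true := fun i c => by
      simpa [Prod.ext_iff] using b (neg (rel (v i).2 [var i])) (by simp [Fm, Lg, c])
    have := b (neg (rel (2 * ((v 0).2 + (v 1).2)) [var 0, var 1])) (by simp [Fm, Lg])
    simp only [sat_neg, sat_rel, List.map, tm_var, st2, bf_ev] at this
    exact this ⟨by simp [c], fun t e => by rw [d_self (by omega), d_self (by omega)]⟩
  obtain ⟨α, a, f, b, c⟩ := a ν μ n1 m1
  obtain ⟨p, h⟩ := exists_code.1 (Partrec.nat_iff.1 b.partrec)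
  obtain ⟨e, rfl⟩ : ∃ e, ofNat Code e = p := ⟨encode p, by simp⟩
  obtain ⟨t, u⟩ := evaln_complete.1 (show f 1 ∈ (ofNat Code e).eval 1 by simp [h])
  obtain ⟨t', w⟩ := evaln_complete.1 (show f (2 * 3 ^ e + 1) ∈ (ofNat Code e).eval (2 * 3 ^ e + 1) by simp [h])
  have k : K (Nat.pair e (t + t')) := (k2 _).2 (by
    simp [e2, show _ = _ from evaln_mono (t.le_add_right t') u, show _ = _ from evaln_mono (t'.le_add_left t) w])
  have g : f 1 % 2 = 1 := by
    have := a.1 (μ (f 1)).2 [ν 1] (.inl rfl)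
    simp only [List.map, st1, c, Prod.ext_iff, n2, m2] at this
    simpa using this
  have := (a.1 (2 * Nat.pair e (t + t') + 1) [ν 1, ν (2 * 3 ^ e + 1)] (.inr rfl)).1 ⟨by simp [n2], by
    simp only [Bf, n2]
    simp [Nat.mul_add_div, k, d]
    exact fun t a => by simp [Nat.div_eq_of_lt (Nat.pow_lt_pow_right (show 1 < 3 by simp) a)]⟩
  simp only [List.map, st2, c, m2, g, Bf] at this
  have q : ∀ a b : ZMod 3, (if b = a + 1 then -1 else 1) * b ≠ (if b = a + 1 then -1 else 1) * a + 1 := by decide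
  simp [Nat.mul_add_div] at this
  exact q (d (f 1 / 2) e) (d (f (2 * 3 ^ e + 1) / 2) e) (by simpa [this.1, hs, h] using this.2.2.2)

end Pool.Agent.Results.MP_76ae7e_lc.NotInherited
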